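import Pool.Agent.Work.MP_1e087a_ag.R3.Defs

/-!
# Products of reflections in rank three
-/

namespace Pool.Agent.Mukai3

variable {d : ℤ}

/-- the condition on the vectors -/
def Unit2 (d : ℤ) (v : V) : Prop := Q d v = 1 ∨ Q d v = -1

theorem Unit2.sq {v : V} (h : Unit2 d v) : Q d v * Q d v = 1 := by
  rcases h with h | h <;> rw [h] <;> norm_num

theorem refl_refl {v : V} (hv : Unit2 d v) (x : V) : refl d v (refl d v x) = x := by
  obtain ⟨v1, v2, v3⟩ := v
  obtain ⟨x1, x2, x3⟩ := x
  have h1 := hv.sq
  generalize hq : Q d (v1, v2, v3) = q at h1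
  have hq' : d * v3 ^ 2 - v1 * v2 = q := hq
  have h2 : P d (refl d (v1, v2, v3) (x1, x2, x3)) (v1, v2, v3) =
      - P d (x1, x2, x3) (v1, v2, v3) := by
    simp only [refl, hq, P, Prod.fst_sub, Prod.snd_sub, Prod.smul_fst, Prod.smul_snd,
      smul_eq_mul]
    linear_combination
      (-(2 * d * (x3 * v3) - x1 * v2 - x2 * v1) * (2 * q)) * hq' +
        (-2 * (2 * d * (x3 * v3) - x1 * v2 - x2 * v1)) * h1
  generalize hP : P d (x1, x2, x3) (v1, v2, v3) = p at h2
  rw [refl, h2, hq]
  simp only [refl, hq, hP]
  ext <;> simp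

theorem refl_add (v x y : V) : refl d v (x + y) = refl d v x + refl d v y := by
  have h : P d (x + y) v = P d x v + P d y v := by
    simp only [P, Prod.fst_add, Prod.snd_add]
    ring
  unfold refl
  rw [h, mul_add, add_smul]
  abel

theorem refl_neg (v x : V) : refl d v (-x) = -refl d v x := by
  have h : P d (-x) v = -P d x v := by
    simp only [P, Prod.fst_neg, Prod.snd_neg]
    ring
  unfold refl
  rw [h, mul_neg, neg_smul]
  abel

theorem Q_refl {v : V} (hv : Unit2 d v) (x : V) : Q d (refl d v x) = Q d x := by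
  obtain ⟨v1, v2, v3⟩ := v
  obtain ⟨x1, x2, x3⟩ := x
  have h1 := hv.sq
  generalize hq : Q d (v1, v2, v3) = q at h1
  have hq' : d * v3 ^ 2 - v1 * v2 = q := hq
  generalize hP : P d (x1, x2, x3) (v1, v2, v3) = p
  have hP' : 2 * d * (x3 * v3) - x1 * v2 - x2 * v1 = p := hP
  rw [refl, hq, hP]
  simp only [Q, Prod.fst_sub, Prod.snd_sub, Prod.smul_fst, Prod.smul_snd, smul_eq_mul]
  linear_combination (q * p) ^ 2 * hq' - (q * p) * hP' + (q * p ^ 2) * h1

theorem P_eq (x y : V) : P d x y = Q d (x + y) - Q d x - Q d y := by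
  simp only [P, Q, Prod.fst_add, Prod.snd_add]
  ring

theorem P_comm (x y : V) : P d x y = P d y x := by
  simp only [P]
  ring

theorem P_refl {v : V} (hv : Unit2 d v) (x y : V) :
    P d (refl d v x) (refl d v y) = P d x y := by
  rw [P_eq, P_eq, ← refl_add, Q_refl hv, Q_refl hv, Q_refl hv]

/-- the product of the reflections of a list -/
def app (d : ℤ) (l : List V) (x : V) : V := l.foldr (fun v y => refl d v y) x

theorem app_nil (x : V) : app d [] x = x := rfl

theorem app_cons (v : V) (l : List V) (x : V) : app d (v :: l) x = refl d v (app d l x) := rfl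

theorem app_append (l l' : List V) (x : V) : app d (l ++ l') x = app d l (app d l' x) := by
  induction l with
  | nil => rfl
  | cons v l ih => rw [List.cons_append, app_cons, ih, app_cons]

/-- all the vectors have square `± 2` -/
def Units (d : ℤ) (l : List V) : Prop := ∀ v ∈ l, Unit2 d v

theorem app_reverse {l : List V} (hl : Units d l) (x : V) :
    app d l (app d l.reverse x) = x := by
  induction l generalizing x with
  | nil => rfl
  | cons v l ih =>
    have hv : Unit2 d v := hl v (by simp)
    have hl' : Units d l := fun w hw => hl w (List.mem_cons_of_mem _ hw)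
    rw [List.reverse_cons, app_append, app_cons, ih hl', app_cons, app_nil, refl_refl hv]

theorem Units.reverse {l : List V} (hl : Units d l) : Units d l.reverse :=
  fun v hv => hl v (List.mem_reverse.1 hv)

theorem app_reverse' {l : List V} (hl : Units d l) (x : V) :
    app d l.reverse (app d l x) = x := by
  have := app_reverse hl.reverse x
  rwa [List.reverse_reverse] at this

theorem P_app {l : List V} (hl : Units d l) (x y : V) :
    P d (app d l x) (app d l y) = P d x y := by
  induction l with
  | nil => rfl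
  | cons v l ih =>
    rw [app_cons, app_cons, P_refl (hl v (by simp)),
      ih fun w hw => hl w (List.mem_cons_of_mem _ hw)]

theorem app_neg (l : List V) (x : V) : app d l (-x) = -app d l x := by
  induction l with
  | nil => rfl
  | cons v l ih => rw [app_cons, app_cons, ih, refl_neg]

theorem isProd_app {l : List V} (hl : Units d l) : IsProd d (app d l) :=
  ⟨l, hl, fun _ => rfl⟩

theorem IsProd.comp {f g : V → V} (hf : IsProd d f) (hg : IsProd d g) :
    IsProd d (fun x => f (g x)) := by
  obtain ⟨l, h1, h2⟩ := hf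
  obtain ⟨l', h1', h2'⟩ := hg
  refine ⟨l ++ l', ?_, fun x => ?_⟩
  · intro v hv
    rcases List.mem_append.1 hv with h | h
    · exact h1 v h
    · exact h1' v h
  · show f (g x) = _
    rw [h2, h2']
    exact (app_append l l' x).symm

theorem IsProd.of_app {l : List V} (hl : Units d l) {g : V → V}
    (h : IsProd d (fun x => app d l (g x))) : IsProd d g := by
  have h1 := (isProd_app hl.reverse).comp h
  obtain ⟨l', h2, h3⟩ := h1
  refine ⟨l', h2, fun x => ?_⟩
  have h4 := h3 x
  simp only [app_reverse' hl] at h4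
  exact h4

/-- the twist -/
def ex (d a : ℤ) (x : V) : V := (x.1, x.2.1 + 2 * d * a * x.2.2 + x.1 * (d * a ^ 2), x.2.2 + x.1 * a)

/-- the sign of the last coordinate -/
def sg (x : V) : V := (x.1, x.2.1, -x.2.2)

theorem ex_ex (a b : ℤ) (x : V) : ex d a (ex d b x) = ex d (a + b) x := by
  simp only [ex]
  ext <;> simp <;> ring

theorem ex_zero (x : V) : ex d 0 x = x := by
  simp [ex]

theorem Q_ex (a : ℤ) (x : V) : Q d (ex d a x) = Q d x := by
  simp only [Q, ex]
  ring

theorem Q_sg (x : V) : Q d (sg x) = Q d x := by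
  simp only [Q, sg]
  ring

theorem refl_ex (a : ℤ) (v x : V) : refl d (ex d a v) (ex d a x) = ex d a (refl d v x) := by
  have hP : P d (ex d a x) (ex d a v) = P d x v := by
    simp only [P, ex]
    ring
  rw [refl, refl, Q_ex, hP]
  generalize Q d v * P d x v = p
  simp only [ex]
  ext <;> simp <;> ring

theorem refl_sg (v x : V) : refl d (sg v) (sg x) = sg (refl d v x) := by
  have hP : P d (sg x) (sg v) = P d x v := by
    simp only [P, sg]
    ring
  rw [refl, refl, Q_sg, hP]
  generalize Q d v * P d x v = p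
  simp only [sg]
  ext
  · simp
  · simp
  · simp
    ring

theorem app_ex (a : ℤ) (l : List V) (x : V) :
    app d (l.map (ex d a)) (ex d a x) = ex d a (app d l x) := by
  induction l with
  | nil => rfl
  | cons v l ih => rw [List.map_cons, app_cons, ih, refl_ex, app_cons]

theorem app_sg (l : List V) (x : V) : app d (l.map sg) (sg x) = sg (app d l x) := by
  induction l with
  | nil => rfl
  | cons v l ih => rw [List.map_cons, app_cons, ih, refl_sg, app_cons]

theorem Units.ex {l : List V} (hl : Units d l) (a : ℤ) : Units d (l.map (ex d a)) := by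
  intro v hv
  obtain ⟨w, hw, rfl⟩ := List.mem_map.1 hv
  unfold Unit2
  rw [Q_ex]
  exact hl w hw

theorem Units.sg {l : List V} (hl : Units d l) : Units d (l.map sg) := by
  intro v hv
  obtain ⟨w, hw, rfl⟩ := List.mem_map.1 hv
  unfold Unit2
  rw [Q_sg]
  exact hl w hw

theorem unit_T : Unit2 d (1, -1, 0) := by left; simp [Q]
theorem unit_T' : Unit2 d (1, 1, 0) := by right; simp [Q]

theorem refl_T (x : V) : refl d (1, -1, 0) x = (x.2.1, x.1, x.2.2) := by
  obtain ⟨x1, x2, x3⟩ := x
  ext <;> simp [refl, Q, P]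

theorem refl_T' (x : V) : refl d (1, 1, 0) x = (-x.2.1, -x.1, x.2.2) := by
  obtain ⟨x1, x2, x3⟩ := x
  ext <;> simp [refl, Q, P]

theorem units_TT : Units d [(1, -1, 0), (1, 1, 0)] := by
  intro v hv
  simp only [List.mem_cons, List.not_mem_nil, or_false] at hv
  rcases hv with rfl | rfl
  · exact unit_T
  · exact unit_T'

theorem app_TT (x : V) : app d [(1, -1, 0), (1, 1, 0)] x = (-x.1, -x.2.1, x.2.2) := by
  rw [app_cons, app_cons, app_nil, refl_T', refl_T]

/-- the twist by `2` -/
theorem isProd_ex_two : IsProd d (ex d 2) := by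
  refine ⟨[(1, d - 1, 1), (1, -1, 0), (1, 1, 0), (1, d + 1, -1)], ?_, fun x => ?_⟩
  · intro v hv
    simp only [List.mem_cons, List.not_mem_nil, or_false] at hv
    rcases hv with rfl | rfl | rfl | rfl
    · left; simp [Q]
    · exact unit_T
    · exact unit_T'
    · right; simp [Q]
  · show _ = app d _ x
    rw [app_cons, app_cons, app_cons, app_cons, app_nil, refl_T', refl_T]
    obtain ⟨x1, x2, x3⟩ := x
    have q1 : Q d (1, d - 1, 1) = 1 := by simp [Q]
    have q2 : Q d (1, d + 1, -1) = -1 := by simp [Q]
    simp only [refl, q1, q2, ex, P]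
    ext <;> simp <;> ring

/-- the twist by `1` for `d` odd -/
theorem isProd_ex_one {c : ℤ} (hd : d = 2 * c + 1) : IsProd d (ex d 1) := by
  subst hd
  refine ⟨[(1, -1, 0), (1, 1, 0), (-2, -c, 1), (-2, -(c + 1), 1)], ?_, fun x => ?_⟩
  · intro v hv
    simp only [List.mem_cons, List.not_mem_nil, or_false] at hv
    rcases hv with rfl | rfl | rfl | rfl
    · exact unit_T
    · exact unit_T'
    · left; simp only [Q]; ring
    · right; simp only [Q]; ring
  · show _ = app _ _ x
    rw [app_cons, app_cons, app_cons, app_cons, app_nil, refl_T, refl_T']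
    obtain ⟨x1, x2, x3⟩ := x
    have q1 : Q (2 * c + 1) (-2, -c, 1) = 1 := by simp only [Q]; ring
    have q2 : Q (2 * c + 1) (-2, -(c + 1), 1) = -1 := by simp only [Q]; ring
    simp only [refl, q1, q2, ex, P]
    ext <;> simp <;> ring

theorem IsProd.ex_neg {a : ℤ} (h : IsProd d (ex d a)) : IsProd d (ex d (-a)) := by
  obtain ⟨l, h1, h2⟩ := h
  refine ⟨l.reverse, Units.reverse h1, fun x => ?_⟩
  have h3 : x = ex d a (ex d (-a) x) := by
    rw [ex_ex, add_neg_cancel, ex_zero]
  have h4 : app d l (ex d (-a) x) = x := by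
    conv_rhs => rw [h3]
    exact (h2 _).symm
  show _ = app d l.reverse x
  rw [← h4, app_reverse' h1, h4]

theorem IsProd.ex_mul {a : ℤ} (h : IsProd d (ex d a)) (k : ℤ) : IsProd d (ex d (k * a)) := by
  have hnat : ∀ m : ℕ, IsProd d (ex d (m * a)) := by
    intro m
    induction m with
    | zero => exact ⟨[], by simp, fun x => by simp [ex]⟩
    | succ m ih =>
      have h1 := h.comp ih
      obtain ⟨l, h2, h3⟩ := h1
      refine ⟨l, h2, fun x => ?_⟩
      rw [← h3]
      show _ = ex d a (ex d (m * a) x)
      rw [ex_ex]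
      congr 1
      push_cast
      ring
  rcases Int.eq_nat_or_neg k with ⟨m, rfl | rfl⟩
  · exact hnat m
  · have := (hnat m).ex_neg
    rwa [← neg_mul] at this

/-- the twists which are products of reflections -/
theorem isProd_ex {a : ℤ} (h : Odd d ∨ Even a) : IsProd d (ex d a) := by
  rcases h with ⟨c, hc⟩ | ⟨b, hb⟩
  · have := (isProd_ex_one hc).ex_mul a
    rwa [mul_one] at this
  · have := (isProd_ex_two (d := d)).ex_mul b
    have h2 : b * 2 = a := by rw [hb]; ring
    rwa [h2] at this

end Pool.Agent.Mukai3
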