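import Pool.Agent.Work.MP_1e087a_ag.R3.Core

/-!
# The certificates
-/

namespace Pool.Agent.Mukai3

/-- the certificates -/
def table : List (ℤ × List Piece) := [
  (1, [⟨0, 1, 1, 2, [(1, -1, 0)]⟩]),
  (2, [⟨0, 1, 1, 2, [(1, -1, 0)]⟩]),
  (3, [⟨0, 1, 1, 2, [(1, -1, 0)]⟩]),
  (4, [⟨0, 1, 1, 2, [(1, -1, 0)]⟩]),
  (5, [⟨0, 1, 1, 3, [(1, -1, 0)]⟩, ⟨1, 3, 1, 2, [(2, 2, 1)]⟩]),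
  (6, [⟨0, 1, 2, 5, [(1, -1, 0)]⟩, ⟨2, 5, 1, 2, [(5, 5, 2), (1, -1, 0)]⟩]),
  (7, [⟨0, 1, 1, 3, [(1, -1, 0)]⟩, ⟨1, 3, 1, 2, [(2, 3, 1)]⟩]),
  (8, [⟨0, 1, 1, 3, [(1, -1, 0)]⟩, ⟨1, 3, 1, 2, [(3, 3, 1), (1, -1, 0)]⟩]),
  (9, [⟨0, 1, 1, 3, [(1, -1, 0)]⟩, ⟨1, 3, 1, 2, [(2, 4, 1)]⟩]),
  (10, [⟨0, 1, 1, 4, [(1, -1, 0)]⟩, ⟨1, 4, 3, 7, [(3, 3, 1)]⟩,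
    ⟨3, 7, 1, 2, [(7, 13, 3), (3, 3, 1)]⟩]),
  (11, [⟨0, 1, 1, 4, [(1, -1, 0)]⟩, ⟨1, 4, 2, 5, [(3, 4, 1)]⟩, ⟨2, 5, 1, 2, [(2, 5, 1)]⟩]),
  (13, [⟨0, 1, 1, 4, [(1, -1, 0)]⟩, ⟨1, 4, 2, 5, [(3, 4, 1)]⟩, ⟨2, 5, 1, 2, [(2, 6, 1)]⟩]),
  (14, [⟨0, 1, 1, 4, [(1, -1, 0)]⟩, ⟨1, 4, 5, 12, [(3, 5, 1)]⟩, ⟨5, 12, 4, 9, [(9, 25, 4)]⟩,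
    ⟨4, 9, 1, 2, [(9, 25, 4), (5, 11, 2)]⟩]),
  (15, [⟨0, 1, 1, 4, [(1, -1, 0)]⟩, ⟨1, 4, 1, 3, [(4, 4, 1), (1, -1, 0)]⟩,
    ⟨1, 3, 3, 8, [(8, 17, 3), (2, 7, 1)]⟩, ⟨3, 8, 1, 2, [(2, 7, 1)]⟩]),
  (16, [⟨0, 1, 1, 4, [(1, -1, 0)]⟩, ⟨1, 4, 2, 5, [(3, 5, 1)]⟩,
    ⟨2, 5, 1, 2, [(5, 13, 2), (3, 5, 1)]⟩]),
  (17, [⟨0, 1, 1, 5, [(1, -1, 0)]⟩, ⟨1, 5, 2, 7, [(4, 4, 1)]⟩, ⟨2, 7, 2, 5, [(3, 6, 1)]⟩,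
    ⟨2, 5, 1, 2, [(2, 8, 1)]⟩]),
  (19, [⟨0, 1, 1, 5, [(1, -1, 0)]⟩, ⟨1, 5, 2, 7, [(4, 5, 1)]⟩, ⟨2, 7, 2, 5, [(3, 6, 1)]⟩,
    ⟨2, 5, 1, 2, [(2, 9, 1)]⟩]),
  (21, [⟨0, 1, 1, 5, [(1, -1, 0)]⟩, ⟨1, 5, 3, 10, [(4, 5, 1)]⟩,
    ⟨3, 10, 1, 3, [(10, 19, 3), (4, 5, 1)]⟩, ⟨1, 3, 2, 5, [(5, 17, 2), (2, 10, 1)]⟩,
    ⟨2, 5, 1, 2, [(2, 10, 1)]⟩]),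
  (23, [⟨0, 1, 1, 5, [(1, -1, 0)]⟩, ⟨1, 5, 2, 7, [(4, 6, 1)]⟩, ⟨2, 7, 2, 5, [(3, 8, 1)]⟩,
    ⟨2, 5, 1, 2, [(2, 11, 1)]⟩]),
  (25, [⟨0, 1, 1, 5, [(1, -1, 0)]⟩, ⟨1, 5, 2, 7, [(4, 6, 1)]⟩, ⟨2, 7, 2, 5, [(3, 8, 1)]⟩,
    ⟨2, 5, 1, 2, [(2, 12, 1)]⟩]),
  (26, [⟨0, 1, 1, 6, [(1, -1, 0)]⟩, ⟨1, 6, 4, 17, [(5, 5, 1)]⟩,
    ⟨4, 17, 2, 7, [(7, 15, 2), (3, 9, 1)]⟩, ⟨2, 7, 7, 18, [(3, 9, 1)]⟩,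
    ⟨7, 18, 17, 37, [(5, 21, 2), (3, 9, 1)]⟩,
    ⟨17, 37, 7, 15, [(15, 85, 7), (5, 21, 2), (3, 9, 1)]⟩,
    ⟨7, 15, 1, 2, [(15, 85, 7), (11, 59, 5)]⟩]),
  (29, [⟨0, 1, 1, 6, [(1, -1, 0)]⟩, ⟨1, 6, 2, 9, [(5, 6, 1)]⟩, ⟨2, 9, 2, 7, [(4, 7, 1)]⟩,
    ⟨2, 7, 3, 8, [(3, 10, 1)]⟩, ⟨3, 8, 3, 7, [(5, 23, 2)]⟩, ⟨3, 7, 1, 2, [(2, 14, 1)]⟩]),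
  (31, [⟨0, 1, 1, 6, [(1, -1, 0)]⟩, ⟨1, 6, 2, 9, [(5, 6, 1)]⟩, ⟨2, 9, 2, 7, [(4, 8, 1)]⟩,
    ⟨2, 7, 3, 8, [(3, 10, 1)]⟩, ⟨3, 8, 3, 7, [(5, 25, 2)]⟩, ⟨3, 7, 1, 2, [(2, 15, 1)]⟩]),
  (35, [⟨0, 1, 1, 6, [(1, -1, 0)]⟩, ⟨1, 6, 1, 5, [(6, 6, 1), (1, -1, 0)]⟩,
    ⟨1, 5, 1, 4, [(4, 9, 1), (3, 12, 1)]⟩, ⟨1, 4, 2, 7, [(4, 9, 1)]⟩, ⟨2, 7, 3, 8, [(3, 12, 1)]⟩,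
    ⟨3, 8, 2, 5, [(11, 51, 4), (3, 12, 1)]⟩, ⟨2, 5, 5, 12, [(12, 73, 5), (2, 17, 1)]⟩,
    ⟨5, 12, 1, 2, [(2, 17, 1)]⟩]),
  (39, [⟨0, 1, 3, 19, [(1, -1, 0)]⟩, ⟨3, 19, 1, 5, [(5, 8, 1), (4, 10, 1)]⟩,
    ⟨1, 5, 2, 9, [(5, 8, 1)]⟩, ⟨2, 9, 2, 7, [(4, 10, 1)]⟩, ⟨2, 7, 5, 16, [(10, 35, 3)]⟩,
    ⟨5, 16, 1, 3, [(16, 61, 5), (10, 35, 3)]⟩, ⟨1, 3, 3, 8, [(8, 44, 3), (5, 31, 2)]⟩,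
    ⟨3, 8, 3, 7, [(5, 31, 2)]⟩, ⟨3, 7, 1, 2, [(2, 19, 1)]⟩]),
  (41, [⟨0, 1, 1, 7, [(1, -1, 0)]⟩, ⟨1, 7, 2, 11, [(6, 7, 1)]⟩, ⟨2, 11, 2, 9, [(5, 8, 1)]⟩,
    ⟨2, 9, 2, 7, [(4, 10, 1)]⟩, ⟨2, 7, 3, 8, [(3, 14, 1)]⟩, ⟨3, 8, 3, 7, [(5, 33, 2)]⟩,
    ⟨3, 7, 1, 2, [(2, 20, 1)]⟩]),
  (47, [⟨0, 1, 1, 7, [(1, -1, 0)]⟩, ⟨1, 7, 2, 11, [(6, 8, 1)]⟩,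
    ⟨2, 11, 2, 9, [(9, 21, 2), (4, 12, 1), (3, 16, 1)]⟩, ⟨2, 9, 2, 7, [(4, 12, 1)]⟩,
    ⟨2, 7, 3, 8, [(3, 16, 1)]⟩, ⟨3, 8, 3, 7, [(8, 53, 3), (3, 16, 1), (4, 12, 1)]⟩,
    ⟨3, 7, 1, 2, [(2, 23, 1)]⟩]),
  (49, [⟨0, 1, 1, 7, [(1, -1, 0)]⟩, ⟨1, 7, 2, 11, [(6, 8, 1)]⟩, ⟨2, 11, 2, 9, [(5, 10, 1)]⟩,
    ⟨2, 9, 2, 7, [(4, 12, 1)]⟩, ⟨2, 7, 3, 8, [(3, 16, 1)]⟩, ⟨3, 8, 3, 7, [(5, 39, 2)]⟩,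
    ⟨3, 7, 1, 2, [(2, 24, 1)]⟩]),
  (59, [⟨0, 1, 1, 8, [(1, -1, 0)]⟩, ⟨1, 8, 2, 13, [(6, 10, 1), (5, 12, 1), (4, 15, 1)]⟩,
    ⟨2, 13, 2, 11, [(6, 10, 1)]⟩, ⟨2, 11, 2, 9, [(5, 12, 1)]⟩, ⟨2, 9, 3, 11, [(4, 15, 1)]⟩,
    ⟨3, 11, 3, 10, [(4, 15, 1), (5, 12, 1), (6, 10, 1)]⟩, ⟨3, 10, 3, 8, [(3, 20, 1)]⟩,
    ⟨3, 8, 14, 33, [(5, 47, 2)]⟩, ⟨14, 33, 4, 9, [(9, 105, 4), (2, 29, 1)]⟩,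
    ⟨4, 9, 1, 2, [(2, 29, 1)]⟩]),
  (71, [⟨0, 1, 2, 17, [(1, -1, 0)]⟩, ⟨2, 17, 2, 15, [(8, 9, 1), (1, -1, 0)]⟩,
    ⟨2, 15, 2, 13, [(7, 10, 1)]⟩, ⟨2, 13, 2, 11, [(6, 12, 1)]⟩, ⟨2, 11, 2, 9, [(5, 14, 1)]⟩,
    ⟨2, 9, 3, 11, [(4, 18, 1)]⟩, ⟨3, 11, 3, 10, [(10, 64, 3), (3, 24, 1), (5, 57, 2)]⟩,
    ⟨3, 10, 7, 19, [(3, 24, 1)]⟩, ⟨7, 19, 5, 13, [(8, 80, 3), (3, 24, 1)]⟩,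
    ⟨5, 13, 5, 12, [(5, 57, 2)]⟩, ⟨5, 12, 4, 9, [(12, 148, 5), (5, 57, 2), (3, 24, 1)]⟩,
    ⟨4, 9, 1, 2, [(2, 35, 1)]⟩])]

theorem table_cert : ∀ p ∈ table, 0 < p.1 ∧ Cert p.1 p.2 := by
  decide +kernel

theorem table_fst : table.map Prod.fst = [1, 2, 3, 4, 5, 6, 7, 8, 9, 10, 11, 13, 14, 15, 16, 17, 19, 21, 23, 25, 26, 29, 31, 35, 39, 41, 47, 49, 59, 71] := rfl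

end Pool.Agent.Mukai3
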