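import Pool.Agent.Work.MP_1e087a_ag.R3.Step

/-!
# The isometries are products of reflections
-/

namespace Pool.Agent.Mukai3

variable {d : ℤ}

/-- an additive isometry acting trivially on the discriminant group, with the parity condition -/
structure Good (d : ℤ) (g : V → V) : Prop where
  add : ∀ x y, g (x + y) = g x + g y
  isom : ∀ x, Q d (g x) = Q d x
  disc : ∃ m : V, g (0, 0, 1) = (0, 0, 1) + (2 * d) • m ∧ (Odd d ∨ Even (m.1 + m.2.1))

theorem Good.refl {g : V → V} (hg : Good d g) {v : V} (hv : Unit2 d v) :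
    Good d (fun x => Mukai3.refl d v (g x)) := by
  refine ⟨fun x y => by rw [hg.add, refl_add], fun x => by rw [Q_refl hv, hg.isom], ?_⟩
  obtain ⟨m, h1, h2⟩ := hg.disc
  set e := P d m v + v.2.2 with he
  have hP : P d ((0, 0, 1) + (2 * d) • m) v = 2 * d * e := by
    rw [he]
    simp only [P, Prod.fst_add, Prod.snd_add, Prod.smul_fst, Prod.smul_snd, smul_eq_mul]
    ring
  refine ⟨m - (Q d v * e) • v, ?_, ?_⟩
  · rw [h1, Mukai3.refl, hP]
    ext <;> simp <;> ring
  · rcases h2 with h2 | h2
    · exact Or.inl h2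
    · by_cases hd : Odd d
      · exact Or.inl hd
      · right
        have hd' : Even d := Int.not_odd_iff_even.1 hd
        -- the coordinates of `v` are odd
        have hv2 : Odd (v.1 * v.2.1) := by
          have h3 : v.1 * v.2.1 = d * v.2.2 ^ 2 - Q d v := by simp only [Q]; ring
          rw [h3]
          refine Even.sub_odd (hd'.mul_right _) ?_
          rcases hv with h | h <;> rw [h]
          · exact odd_one
          · exact odd_neg_one
        have hv3 : Even (v.1 + v.2.1) := by
          have h4 := Int.odd_mul.1 hv2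
          exact h4.1.add_odd h4.2
        have h5 : (m - (Q d v * e) • v).1 + (m - (Q d v * e) • v).2.1 =
            (m.1 + m.2.1) - (Q d v * e) * (v.1 + v.2.1) := by
          simp only [Prod.fst_sub, Prod.snd_sub, Prod.smul_fst, Prod.smul_snd, smul_eq_mul]
          ring
        rw [h5]
        exact h2.sub (hv3.mul_left _)

theorem Good.app {g : V → V} (hg : Good d g) {l : List V} (hl : Units d l) :
    Good d (fun x => Mukai3.app d l (g x)) := by
  induction l with
  | nil => exact hg
  | cons v l ih =>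
    exact (ih fun w hw => hl w (List.mem_cons_of_mem _ hw)).refl (hl v (by simp))

theorem Good.P {g : V → V} (hg : Good d g) (x y : V) : P d (g x) (g y) = P d x y := by
  rw [P_eq, P_eq, ← hg.add, hg.isom, hg.isom, hg.isom]

/-- the invariant of the orbit -/
theorem Good.inv {g : V → V} (hd : d ≠ 0) (hg : Good d g) :
    IsCoprime (g (0, 1, 0)).1 d ∨ IsCoprime (g (0, 1, 0)).2.1 d := by
  obtain ⟨m, h1, _⟩ := hg.disc
  have p1 := hg.P (0, 1, 0) (0, 0, 1)
  have p2 := hg.P (0, 1, 0) (1, 0, 0)
  have q1 := hg.isom (0, 1, 0)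
  have q2 := hg.isom (0, 0, 1)
  rw [h1] at p1 q2
  generalize g (0, 1, 0) = u at p1 p2 q1 ⊢
  generalize g (1, 0, 0) = u' at p2
  obtain ⟨r, s, z⟩ := u
  obtain ⟨r', s', z'⟩ := u'
  obtain ⟨α, β, δ⟩ := m
  simp [Mukai3.P, Q] at p1 p2 q1 q2
  -- the relations
  have e1 : r * β + s * α = z * (1 + 2 * d * δ) := by
    apply mul_left_cancel₀ (mul_ne_zero two_ne_zero hd)
    linear_combination -p1
  have e2 : δ * (1 + d * δ) = α * β := by
    apply mul_left_cancel₀ (mul_ne_zero four_ne_zero (mul_ne_zero hd hd))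
    linear_combination q2
  have e3 : (r * β - s * α) ^ 2 = z ^ 2 := by
    linear_combination (r * β + s * α + z * (1 + 2 * d * δ)) * e1 + (4 * d * z ^ 2) * e2 +
      (4 * α * β) * q1
  by_cases hz : z = 0
  · subst hz
    have h3 : r * s = 0 := by linear_combination -q1
    rcases mul_eq_zero.1 h3 with h | h
    · right
      subst h
      exact ⟨r', 0, by linear_combination -p2⟩
    · left
      subst h
      exact ⟨s', 0, by linear_combination -p2⟩
  · rcases sq_eq_sq_iff_eq_or_eq_neg.1 e3 with h | h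
    · left
      -- `r β = z (1 + d δ)`, `s α = z d δ`, `s (1 + d δ) = d z β`
      have h4 : r * β = z * (1 + d * δ) := by linarith
      have h5 : s * (1 + d * δ) = d * z * β := by
        apply mul_left_cancel₀ hz
        linear_combination (-s) * h4 - β * q1
      refine ⟨s' * (1 + d * δ), z * β * r' - 2 * z * z' * (1 + d * δ) - δ, ?_⟩
      linear_combination (-(1 + d * δ)) * p2 - r' * h5
    · right
      have h4 : s * α = z * (1 + d * δ) := by linarith
      have h5 : r * (1 + d * δ) = d * z * α := by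
        apply mul_left_cancel₀ hz
        linear_combination (-r) * h4 - α * q1
      refine ⟨r' * (1 + d * δ), z * α * s' - 2 * z * z' * (1 + d * δ) - δ, ?_⟩
      linear_combination (-(1 + d * δ)) * p2 - s' * h5

theorem Good.ext_of {g : V → V} (hg : Good d g) (h1 : g (0, 1, 0) = (0, 1, 0))
    (h2 : g (0, 0, 1) = (0, 0, 1)) (h3 : g (1, 0, 0) = (1, 0, 0)) (x : V) : g x = x := by
  set G : V →+ V := ⟨⟨g, by
    have := hg.add 0 0
    rw [add_zero] at this
    exact left_eq_add.1 this⟩, hg.add⟩ with hG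
  have e : x = x.1 • ((1, 0, 0) : V) + x.2.1 • ((0, 1, 0) : V) + x.2.2 • ((0, 0, 1) : V) := by
    ext <;> simp
  have h4 : G x = x.1 • G (1, 0, 0) + x.2.1 • G (0, 1, 0) + x.2.2 • G (0, 0, 1) := by
    conv_lhs => rw [e]
    rw [map_add, map_add, map_zsmul, map_zsmul, map_zsmul]
  have h5 : G (1, 0, 0) = (1, 0, 0) := h3
  have h6 : G (0, 1, 0) = (0, 1, 0) := h1
  have h7 : G (0, 0, 1) = (0, 0, 1) := h2
  rw [h5, h6, h7, ← e] at h4
  exact h4

/-- the twists preserve the conditions -/
theorem Good.ex {g : V → V} (hg : Good d g) {a : ℤ} (ha : Odd d ∨ Even a) :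
    Good d (fun x => Mukai3.ex d a (g x)) := by
  obtain ⟨l, h1, h2⟩ := isProd_ex (d := d) ha
  have h3 := hg.app (l := l) h1
  have h4 : (fun x => Mukai3.ex d a (g x)) = fun x => Mukai3.app d l (g x) := by
    funext x
    exact h2 _
  rw [h4]
  exact h3

/-- the isometries fixing the isotropic vector -/
theorem Good.fix {g : V → V} (hd : 0 < d) (hg : Good d g) (h1 : g (0, 1, 0) = (0, 1, 0))
    {α β : ℤ} (h2 : g (0, 0, 1) = (2 * d * α, 2 * d * β, 1)) (hβ : Odd d ∨ Even (α + β)) :
    IsProd d g := by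
  have p1 := hg.P (0, 1, 0) (0, 0, 1)
  rw [h1, h2] at p1
  have hα : α = 0 := by
    simp [Mukai3.P] at p1
    rcases p1 with h | h
    · exact absurd h hd.ne'
    · exact h
  subst hα
  rw [zero_add] at hβ
  have hβ' : Odd d ∨ Even (-β) := by
    rcases hβ with h | h
    · exact Or.inl h
    · exact Or.inr h.neg
  have hh := hg.ex hβ'
  have k1 : Mukai3.ex d (-β) (g (0, 1, 0)) = (0, 1, 0) := by
    rw [h1]
    simp [Mukai3.ex]
  have k2 : Mukai3.ex d (-β) (g (0, 0, 1)) = (0, 0, 1) := by
    rw [h2]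
    simp [Mukai3.ex]
  have k3 : Mukai3.ex d (-β) (g (1, 0, 0)) = (1, 0, 0) := by
    have q1 := hh.P (0, 1, 0) (1, 0, 0)
    have q2 := hh.P (0, 0, 1) (1, 0, 0)
    have q3 := hh.isom (1, 0, 0)
    simp only [k1, k2] at q1 q2
    generalize Mukai3.ex d (-β) (g (1, 0, 0)) = y at q1 q2 q3 ⊢
    obtain ⟨x1, x2, x3⟩ := y
    simp [Mukai3.P, Q] at q1 q2 q3
    have x10 : x1 = 1 := by linarith
    have x30 : x3 = 0 := by
      rcases q2 with h | h
      · exact absurd h hd.ne'
      · exact h
    subst x10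
    subst x30
    have x20 : x2 = 0 := by linarith
    subst x20
    rfl
  have h3 : ∀ x, Mukai3.ex d (-β) (g x) = x := hh.ext_of k1 k2 k3
  have h4 : ∀ x, g x = Mukai3.ex d β x := by
    intro x
    have := congrArg (Mukai3.ex d β) (h3 x)
    rw [ex_ex, add_neg_cancel, ex_zero] at this
    exact this
  obtain ⟨l, h5, h6⟩ := isProd_ex (d := d) hβ
  exact ⟨l, h5, fun x => by rw [h4, h6]⟩

/-- the end of the descent -/
theorem Good.last {g : V → V} (hd : 0 < d) (hg : Good d g) (h0 : (g (0, 1, 0)).1 = 0) :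
    IsProd d g := by
  -- the sign of `g e`
  wlog h1 : g (0, 1, 0) = (0, 1, 0) generalizing g with H
  · have q1 := hg.isom (0, 1, 0)
    have p2 := hg.P (0, 1, 0) (1, 0, 0)
    have h3 : g (0, 1, 0) = (0, -1, 0) := by
      generalize g (0, 1, 0) = u at h0 h1 p2 q1 ⊢
      generalize g (1, 0, 0) = u' at p2
      obtain ⟨r, s, z⟩ := u
      obtain ⟨r', s', z'⟩ := u'
      simp only at h0
      subst h0
      simp [Mukai3.P, Q] at q1 p2 h1
      have hz : z = 0 := by
        rcases q1 with h | h
        · exact absurd h hd.ne'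
        · exact h
      subst hz
      have hs : IsUnit s := IsUnit.of_mul_eq_one r' (by linarith)
      rcases Int.isUnit_iff.1 hs with h | h
      · exact absurd rfl (h1 h)
      · rw [h]
    have hg' := hg.app (l := [(1, -1, 0), (1, 1, 0)]) units_TT
    have h4 : Mukai3.app d [(1, -1, 0), (1, 1, 0)] (g (0, 1, 0)) = (0, 1, 0) := by
      rw [app_TT, h3]
      simp
    exact IsProd.of_app units_TT (H hg' (by simp only [h4]) h4)
  obtain ⟨m, h2, h3⟩ := hg.disc
  have p1 := hg.P (0, 1, 0) (0, 0, 1)
  have q2 := hg.isom (0, 0, 1)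
  rw [h1, h2] at p1
  rw [h2] at q2
  obtain ⟨α, β, δ⟩ := m
  simp [Mukai3.P, Q] at p1 q2
  have hα : α = 0 := by
    rcases p1 with h | h
    · exact absurd h hd.ne'
    · exact h
  subst hα
  have e2 : δ * (1 + d * δ) = 0 := by
    apply mul_left_cancel₀ (mul_ne_zero four_ne_zero (mul_ne_zero hd.ne' hd.ne'))
    linear_combination q2
  rcases mul_eq_zero.1 e2 with h | h
  · subst h
    refine hg.fix hd h1 (α := 0) (β := β) ?_ h3
    rw [h2]
    ext <;> simp
  · -- `d = 1`
    have hdvd : d ∣ 1 := ⟨-δ, by linarith⟩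
    have hd1 : d = 1 := by
      have := Int.le_of_dvd one_pos hdvd
      omega
    subst hd1
    have hδ : δ = -1 := by linarith
    subst hδ
    have hu : Unit2 1 (0, 0, 1) := by left; simp [Q]
    have hul : Units 1 [(0, 0, 1)] := by
      intro v hv
      simp only [List.mem_cons, List.not_mem_nil, or_false] at hv
      rw [hv]
      exact hu
    have happ : ∀ x : V, Mukai3.app 1 [(0, 0, 1)] x = (x.1, x.2.1, -x.2.2) := by
      intro x
      rw [app_cons, app_nil, Mukai3.refl]
      have hq : Q 1 (0, 0, 1) = 1 := by simp [Q]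
      rw [hq]
      obtain ⟨x1, x2, x3⟩ := x
      simp only [Mukai3.P]
      ext
      · simp
      · simp
      · simp
        ring
    refine IsProd.of_app hul ((hg.app hul).fix one_pos ?_ (α := 0) (β := β) ?_
      (Or.inl odd_one))
    · rw [h1, happ]
      simp
    · rw [h2, happ]
      ext <;> simp

/-- the theorem -/
theorem Good.isProd {l : List Piece} (hd : 0 < d) (hc : Cert d l) {g : V → V} (hg : Good d g) :
    IsProd d g := by
  obtain ⟨N, hN⟩ : ∃ N : ℕ, (g (0, 1, 0)).1.natAbs = N := ⟨_, rfl⟩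
  induction N using Nat.strong_induction_on generalizing g with
  | _ N ih =>
    by_cases h0 : (g (0, 1, 0)).1 = 0
    · exact hg.last hd h0
    · obtain ⟨w, hw, hlt⟩ := step hd hc h0 (by
        rw [hg.isom]
        simp [Q]) (hg.inv hd.ne')
      have h1 : (Mukai3.app d w (g (0, 1, 0))).1.natAbs < N := by
        rw [← hN]
        have h2 := hlt
        rw [Int.abs_eq_natAbs, Int.abs_eq_natAbs] at h2
        exact_mod_cast h2
      exact IsProd.of_app hw (ih _ h1 (hg.app hw) rfl)

/-- the same for isometries acting as `± 1` on the discriminant group -/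
theorem isProd_of_cert {l : List Piece} (hd : 0 < d) (hc : Cert d l) {ν : ℤ}
    (hν : ν = 1 ∨ ν = -1) {g : V →+ V} (hg : ∀ x, Q d (g x) = Q d x) (hD : DiscAct d ν g)
    (hp : Odd d ∨ ∃ v, Odd (Q d v) ∧ (g v = v ∨ g v = -v)) :
    IsProd d (fun x => ν • g x) := by
  have hν' : ν * ν = 1 := by rcases hν with rfl | rfl <;> norm_num
  obtain ⟨a, h1⟩ := hD (AddMonoidHom.fst ℤ (ℤ × ℤ))
  obtain ⟨b, h2⟩ := hD ((AddMonoidHom.fst ℤ ℤ).comp (AddMonoidHom.snd ℤ (ℤ × ℤ)))
  obtain ⟨c, h3⟩ := hD ((AddMonoidHom.snd ℤ ℤ).comp (AddMonoidHom.snd ℤ (ℤ × ℤ)))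
  have f1 := h1 (0, 0, 1)
  have f2 := h2 (0, 0, 1)
  have f3 := h3 (0, 0, 1)
  simp [P] at f1 f2 f3
  have hadd : ∀ x y : V, ν • g (x + y) = ν • g x + ν • g y := by
    intro x y
    rw [map_add, smul_add]
  have hisom : ∀ x, Q d (ν • g x) = Q d x := by
    intro x
    rw [← hg x]
    simp only [Q, Prod.smul_fst, Prod.smul_snd, smul_eq_mul]
    linear_combination (d * (g x).2.2 ^ 2 - (g x).1 * (g x).2.1) * hν'
  set m : V := (ν * a.2.2, ν * b.2.2, ν * c.2.2) with hm
  have hdisc : ν • g (0, 0, 1) = (0, 0, 1) + (2 * d) • m := by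
    generalize g (0, 0, 1) = y at f1 f2 f3 ⊢
    obtain ⟨x1, x2, x3⟩ := y
    simp only at f1 f2 f3
    ext
    · simp [hm]
      linear_combination ν * f1
    · simp [hm]
      linear_combination ν * f2
    · simp [hm]
      linear_combination ν * f3 + hν'
  refine Good.isProd hd hc ⟨hadd, hisom, m, hdisc, ?_⟩
  rcases hp with hp | ⟨v, hv, hgv⟩
  · exact Or.inl hp
  · by_cases hdo : Odd d
    · exact Or.inl hdo
    · right
      have hde : Even d := Int.not_odd_iff_even.1 hdo
      -- the pairing of `m` and `v`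
      set κ : ℤ := P d m v with hκ
      have hPg : P d (ν • g (0, 0, 1)) (ν • g v) = P d (0, 0, 1) v := by
        have hP1 : ∀ x y : V, P d (ν • g x) (ν • g y) = P d x y := by
          intro x y
          rw [P_eq, P_eq, ← hadd, hisom, hisom, hisom]
        exact hP1 _ _
      have hνgv : ν • g v = v ∨ ν • g v = -v := by
        rcases hν with rfl | rfl <;> rcases hgv with h | h <;> rw [h] <;> simp
      have hPlin : P d ((0, 0, 1) + (2 * d) • m) v = P d (0, 0, 1) v + 2 * d * κ := by
        rw [hκ]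
        simp only [P, Prod.fst_add, Prod.snd_add, Prod.smul_fst, Prod.smul_snd, smul_eq_mul]
        ring
      have hPneg : ∀ x : V, P d x (-v) = -P d x v := by
        intro x
        simp only [P, Prod.fst_neg, Prod.snd_neg]
        ring
      have hd0 : (2 * d : ℤ) ≠ 0 := by positivity
      have hκe : Even κ := by
        rcases hνgv with h | h
        · rw [h, hdisc, hPlin] at hPg
          have : 2 * d * κ = 0 := by linarith
          rcases mul_eq_zero.1 this with h5 | h5
          · exact absurd h5 hd0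
          · rw [h5]; exact Even.zero
        · rw [h, hdisc, hPneg, hPlin] at hPg
          have h6 : P d (0, 0, 1) v = 2 * d * v.2.2 := by simp [P]
          rw [h6] at hPg
          have h7 : 2 * d * κ = 2 * d * (-2 * v.2.2) := by linarith
          have h8 := mul_left_cancel₀ hd0 h7
          rw [h8]
          exact ⟨-v.2.2, by ring⟩
      -- the coordinates of `v` are odd
      have hv2 : Odd (v.1 * v.2.1) := by
        have h3 : v.1 * v.2.1 = d * v.2.2 ^ 2 - Q d v := by simp only [Q]; ring
        rw [h3]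
        exact Even.sub_odd (hde.mul_right _) hv
      obtain ⟨hv3, hv4⟩ := Int.odd_mul.1 hv2
      -- `κ = m₁ v₂ + m₂ v₁` modulo `2`
      have h9 : Even (m.1 * v.2.1 + m.2.1 * v.1) := by
        have : m.1 * v.2.1 + m.2.1 * v.1 = 2 * (d * (m.2.2 * v.2.2)) - κ := by
          rw [hκ]
          simp only [P]
          ring
        rw [this]
        exact (even_two_mul _).sub hκe
      clear_value m
      have n1 : ¬ Even v.1 := Int.not_even_iff_odd.2 hv3
      have n2 : ¬ Even v.2.1 := Int.not_even_iff_odd.2 hv4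
      rw [Int.even_add, Int.even_mul, Int.even_mul] at h9
      rw [Int.even_add]
      simp only [n1, n2, or_false] at h9
      exact h9

end Pool.Agent.Mukai3
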