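import Mathlib

/-!
# The algebraic Mukai lattice of a K3 surface of Picard number one: definitions

The K3 surface has an ample generator of degree `2 d` of its Picard group. The algebraic Mukai
lattice is `ℤ ⊕ ℤ ⊕ ℤ`, half of the square of `(r, s, z)` is `d z² - r s`.
-/

namespace Pool.Agent.Mukai3

/-- the algebraic Mukai lattice, with elements `(r, s, z)` -/
abbrev V : Type := ℤ × ℤ × ℤ

/-- half of the square of an element of the Mukai lattice -/
def Q (d : ℤ) (v : V) : ℤ := d * v.2.2 ^ 2 - v.1 * v.2.1

/-- the Mukai pairing -/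
def P (d : ℤ) (v w : V) : ℤ := 2 * d * (v.2.2 * w.2.2) - v.1 * w.2.1 - v.2.1 * w.1

/-- the reflection in a vector `v` with `v² = ±2`: `x ↦ x - (2 (x, v) / (v, v)) v` -/
def refl (d : ℤ) (v x : V) : V := x - (Q d v * P d x v) • v

/-- `g` is a product of reflections in vectors `v` with `v² = ±2` -/
def IsProd (d : ℤ) (g : V → V) : Prop :=
  ∃ l : List V, (∀ v ∈ l, Q d v = 1 ∨ Q d v = -1) ∧
    ∀ x, g x = l.foldr (fun v y => refl d v y) x

/-- `g` acts as multiplication by `ν` on the discriminant group of the Mukai lattice: for every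
linear form `φ` the form `φ ∘ g - ν φ` is the pairing with an element of the lattice -/
def DiscAct (d ν : ℤ) (g : V →+ V) : Prop :=
  ∀ φ : V →+ ℤ, ∃ a : V, ∀ x, φ (g x) - ν * φ x = P d a x

end Pool.Agent.Mukai3
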