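import Pool.Agent.Work.MP_1e087a_ag.R3.Basic

/-!
# The descent step
-/

namespace Pool.Agent.Mukai3

variable {d : ℤ}

/-- a piece: the interval `[a / b, a' / b']` and a list of vectors -/
structure Piece where
  a : ℤ
  b : ℤ
  a' : ℤ
  b' : ℤ
  l : List V

/-- the cusp `a / b` is not in the orbit of infinity -/
def exc (d a b : ℤ) : Prop := Int.gcd a b = 1 ∧ Int.gcd b d ≠ 1 ∧ ¬ d ∣ b

instance (d a b : ℤ) : Decidable (exc d a b) := by unfold exc; infer_instance

/-- `a / b` is in the open interval of the image `e` of the first isotropic vector -/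
def strict (d : ℤ) (e : V) (a b : ℤ) : Prop := d * (a * e.1 - e.2.2 * b) ^ 2 < |e.1| * b ^ 2

instance (d : ℤ) (e : V) (a b : ℤ) : Decidable (strict d e a b) := by
  unfold strict; infer_instance

/-- `a / b` is an exceptional cusp in the closed interval -/
def weak (d : ℤ) (e : V) (a b : ℤ) : Prop :=
  d * (a * e.1 - e.2.2 * b) ^ 2 ≤ |e.1| * b ^ 2 ∧ exc d a b

instance (d : ℤ) (e : V) (a b : ℤ) : Decidable (weak d e a b) := by
  unfold weak; infer_instance

/-- the condition on a piece -/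
def Piece.Ok (d : ℤ) (p : Piece) : Prop :=
  (∀ v ∈ p.l, Q d v = 1 ∨ Q d v = -1) ∧ 0 < p.b ∧ 0 < p.b' ∧ p.a * p.b' < p.a' * p.b ∧
    (app d p.l (0, 1, 0)).1 ≠ 0 ∧
    ((strict d (app d p.l (0, 1, 0)) p.a p.b ∧ strict d (app d p.l (0, 1, 0)) p.a' p.b') ∨
      (strict d (app d p.l (0, 1, 0)) p.a p.b ∧ weak d (app d p.l (0, 1, 0)) p.a' p.b') ∨
      (weak d (app d p.l (0, 1, 0)) p.a p.b ∧ strict d (app d p.l (0, 1, 0)) p.a' p.b'))

instance (d : ℤ) (p : Piece) : Decidable (p.Ok d) := by unfold Piece.Ok; infer_instance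

/-- the pieces form a chain from `a / b` to `1 / 2` -/
def chain : ℤ → ℤ → List Piece → Prop
  | a, b, [] => a = 1 ∧ b = 2
  | a, b, p :: t => p.a = a ∧ p.b = b ∧ chain p.a' p.b' t

instance decChain : ∀ (a b : ℤ) (l : List Piece), Decidable (chain a b l)
  | a, b, [] => by unfold chain; infer_instance
  | a, b, p :: t => by
    unfold chain
    have := decChain p.a' p.b' t
    infer_instance

/-- a certificate -/
def Cert (d : ℤ) (l : List Piece) : Prop := (∀ p ∈ l, p.Ok d) ∧ chain 0 1 l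

instance (d : ℤ) (l : List Piece) : Decidable (Cert d l) := by unfold Cert; infer_instance

theorem exists_piece {a b r z : ℤ} {l : List Piece} (hc : chain a b l)
    (h : a * r < z * b) (hz : 2 * z ≤ r) :
    ∃ p ∈ l, p.a * r ≤ z * p.b ∧ z * p.b' ≤ p.a' * r := by
  induction l generalizing a b with
  | nil =>
    obtain ⟨rfl, rfl⟩ := hc
    exfalso
    linarith
  | cons p t ih =>
    obtain ⟨h1, h2, h3⟩ := hc
    rw [← h1, ← h2] at h
    by_cases h4 : z * p.b' ≤ p.a' * r
    · exact ⟨p, by simp, h.le, h4⟩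
    · push Not at h4
      obtain ⟨q, hq, hq'⟩ := ih h3 h4
      exact ⟨q, List.mem_cons_of_mem _ hq, hq'⟩

theorem exists_piece' {r z : ℤ} {l : List Piece} (hc : chain 0 1 l)
    (hr : 0 < r) (h : 0 ≤ z) (hz : 2 * z ≤ r) :
    ∃ p ∈ l, p.a * r ≤ z * p.b ∧ z * p.b' ≤ p.a' * r := by
  rcases h.lt_or_eq with h | h
  · exact exists_piece hc (by linarith) hz
  · subst h
    cases l with
    | nil =>
      obtain ⟨h1, _⟩ := hc
      norm_num at h1
    | cons p t =>
      obtain ⟨h1, h2, h3⟩ := hc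
      by_cases h4 : 0 * p.b' ≤ p.a' * r
      · exact ⟨p, by simp, by rw [h1]; simp, h4⟩
      · push Not at h4
        obtain ⟨q, hq, hq'⟩ := exists_piece (r := r) (z := 0) h3 (by linarith) (by linarith)
        exact ⟨q, List.mem_cons_of_mem _ hq, hq'⟩

/-- an exceptional cusp is not in the orbit -/
theorem not_exc {a b r s z : ℤ} (hr : 0 < r) (hQ : r * s = d * z ^ 2)
    (hinv : IsCoprime r d ∨ IsCoprime s d) (he : exc d a b) (hab : z * b = a * r) : False := by
  obtain ⟨h1, h2, h3⟩ := he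
  have hcop : IsCoprime a b := Int.isCoprime_iff_gcd_eq_one.2 h1
  obtain ⟨k, hk⟩ : b ∣ r := hcop.symm.dvd_of_dvd_mul_left ⟨z, by rw [← hab]; ring⟩
  rcases hinv with h | h
  · apply h2
    rw [← Int.isCoprime_iff_gcd_eq_one]
    rw [hk] at h
    exact h.of_mul_left_left
  · apply h3
    have hb : b ≠ 0 := by
      rintro rfl
      rw [zero_mul] at hk
      omega
    have hk0 : k ≠ 0 := by
      rintro rfl
      rw [mul_zero] at hk
      omega
    have hz : z = a * k := by
      apply mul_right_cancel₀ hb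
      rw [hab, hk]
      ring
    have h4 : b * s = d * (a ^ 2 * k) := by
      apply mul_left_cancel₀ hk0
      rw [hk, hz] at hQ
      linear_combination hQ
    have h5 : d ∣ b * s := ⟨_, h4⟩
    exact h.symm.dvd_of_dvd_mul_right h5

/-- convexity -/
theorem strict_of {e : V} {a b a' b' r z : ℤ} (hd : 0 < d) (hb : 0 < b) (hb' : 0 < b')
    (hD : a * b' < a' * b) (hl : a * r ≤ z * b) (hr' : z * b' ≤ a' * r)
    (h1 : d * (a * e.1 - e.2.2 * b) ^ 2 ≤ |e.1| * b ^ 2)
    (h2 : d * (a' * e.1 - e.2.2 * b') ^ 2 ≤ |e.1| * b' ^ 2)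
    (h : (z * b' < a' * r ∧ d * (a * e.1 - e.2.2 * b) ^ 2 < |e.1| * b ^ 2) ∨
      (a * r < z * b ∧ d * (a' * e.1 - e.2.2 * b') ^ 2 < |e.1| * b' ^ 2)) :
    d * (z * e.1 - e.2.2 * r) ^ 2 < |e.1| * r ^ 2 := by
  generalize |e.1| = R at *
  set y := a * e.1 - e.2.2 * b with hy
  set y' := a' * e.1 - e.2.2 * b' with hy'
  set A := z * b - a * r with hA
  set A' := a' * r - z * b' with hA'
  set D := a' * b - a * b' with hDd
  have hA0 : 0 ≤ A := by linarith
  have hA0' : 0 ≤ A' := by linarith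
  have hD0 : 0 < D := by linarith
  have hR : 0 ≤ R := by
    by_contra hneg
    push Not at hneg
    have h3 : R * b ^ 2 < 0 := mul_neg_of_neg_of_pos hneg (by positivity)
    have h4 : 0 ≤ d * y ^ 2 := by positivity
    linarith
  have e1 : D * (z * e.1 - e.2.2 * r) = A' * y + A * y' := by
    rw [hDd, hA, hA', hy, hy']
    ring
  have e2 : D * r = A' * b + A * b' := by
    rw [hDd, hA, hA']
    ring
  -- the mixed term
  have h3 : d * (y * y') ≤ R * (b * b') := by
    have h4 : (d * (y * y')) ^ 2 ≤ (R * (b * b')) ^ 2 := by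
      have h5 : (d * y ^ 2) * (d * y' ^ 2) ≤ (R * b ^ 2) * (R * b' ^ 2) :=
        mul_le_mul h1 h2 (by positivity) (by positivity)
      calc (d * (y * y')) ^ 2 = (d * y ^ 2) * (d * y' ^ 2) := by ring
        _ ≤ (R * b ^ 2) * (R * b' ^ 2) := h5
        _ = (R * (b * b')) ^ 2 := by ring
    exact le_of_sq_le_sq h4 (by positivity)
  have key : d * (A' * y + A * y') ^ 2 < R * (A' * b + A * b') ^ 2 := by
    have t1 : A' ^ 2 * (d * y ^ 2) ≤ A' ^ 2 * (R * b ^ 2) :=
      mul_le_mul_of_nonneg_left h1 (by positivity)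
    have t2 : A ^ 2 * (d * y' ^ 2) ≤ A ^ 2 * (R * b' ^ 2) :=
      mul_le_mul_of_nonneg_left h2 (by positivity)
    have t3 : (2 * (A * A')) * (d * (y * y')) ≤ (2 * (A * A')) * (R * (b * b')) :=
      mul_le_mul_of_nonneg_left h3 (by positivity)
    rcases h with ⟨h4, h5⟩ | ⟨h4, h5⟩
    · have hA1 : 0 < A' := by linarith
      have t1' : A' ^ 2 * (d * y ^ 2) < A' ^ 2 * (R * b ^ 2) :=
        mul_lt_mul_of_pos_left h5 (by positivity)
      nlinarith
    · have hA1 : 0 < A := by linarith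
      have t2' : A ^ 2 * (d * y' ^ 2) < A ^ 2 * (R * b' ^ 2) :=
        mul_lt_mul_of_pos_left h5 (by positivity)
      nlinarith
  have key2 : D ^ 2 * (d * (z * e.1 - e.2.2 * r) ^ 2) < D ^ 2 * (R * r ^ 2) := by
    calc D ^ 2 * (d * (z * e.1 - e.2.2 * r) ^ 2) = d * (D * (z * e.1 - e.2.2 * r)) ^ 2 := by ring
      _ = d * (A' * y + A * y') ^ 2 := by rw [e1]
      _ < R * (A' * b + A * b') ^ 2 := key
      _ = R * (D * r) ^ 2 := by rw [e2]
      _ = D ^ 2 * (R * r ^ 2) := by ring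
  exact lt_of_mul_lt_mul_left key2 (by positivity)

/-- the descent step in the normalized position -/
theorem step₀ {l : List Piece} (hd : 0 < d) (hc : Cert d l) {r s z : ℤ} (hr : 0 < r)
    (hz0 : 0 ≤ z) (hz : 2 * z ≤ r) (hQ : r * s = d * z ^ 2)
    (hinv : IsCoprime r d ∨ IsCoprime s d) :
    ∃ w : List V, Units d w ∧ |(app d w (r, s, z)).1| < r := by
  obtain ⟨p, hp, hp1, hp2⟩ := exists_piece' hc.2 hr hz0 hz
  obtain ⟨hU, hb, hb', hD, hR0, hend⟩ := hc.1 p hp
  have hU' : Units d p.l := hU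
  refine ⟨p.l.reverse, hU'.reverse, ?_⟩
  set e := app d p.l (0, 1, 0) with he
  -- the strict inequality
  have hstrict : d * (z * e.1 - e.2.2 * r) ^ 2 < |e.1| * r ^ 2 := by
    rcases hend with ⟨h1, h2⟩ | ⟨h1, h2, h3⟩ | ⟨⟨h1, h3⟩, h2⟩
    · refine strict_of hd hb hb' hD hp1 hp2 h1.le h2.le ?_
      rcases hp2.lt_or_eq with h | h
      · exact Or.inl ⟨h, h1⟩
      · refine Or.inr ⟨?_, h2⟩
        by_contra hno
        push Not at hno
        have h5 : p.a * r = z * p.b := le_antisymm hp1 hno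
        have h6 : (p.a' * p.b - p.a * p.b') * r = 0 := by
          linear_combination -p.b * h - p.b' * h5
        have h7 : 0 < (p.a' * p.b - p.a * p.b') * r := mul_pos (by linarith) hr
        linarith
    · refine strict_of hd hb hb' hD hp1 hp2 h1.le h2 (Or.inl ⟨?_, h1⟩)
      rcases hp2.lt_or_eq with h | h
      · exact h
      · exact (not_exc hr hQ hinv h3 h).elim
    · refine strict_of hd hb hb' hD hp1 hp2 h1 h2.le (Or.inr ⟨?_, h2⟩)
      rcases hp1.lt_or_eq with h | h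
      · exact h
      · exact (not_exc hr hQ hinv h3 h.symm).elim
  -- the first coordinate of the image
  have h1 : (app d p.l.reverse (r, s, z)).1 = -P d (r, s, z) e := by
    have h2 : P d (app d p.l.reverse (r, s, z)) (0, 1, 0) = P d (r, s, z) e := by
      rw [← P_app hU' (app d p.l.reverse (r, s, z)), app_reverse hU']
    have h3 : P d (app d p.l.reverse (r, s, z)) (0, 1, 0) =
        -(app d p.l.reverse (r, s, z)).1 := by
      simp [P]
    linarith
  have hQe : Q d e = 0 := by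
    have h2 : P d e e = P d (0, 1, 0) (0, 1, 0) := P_app hU' _ _
    have h3 : P d e e = 2 * Q d e := by simp only [P, Q]; ring
    have h4 : P d ((0, 1, 0) : V) (0, 1, 0) = 0 := by simp [P]
    linarith
  have hkey : (app d p.l.reverse (r, s, z)).1 * (r * e.1) = d * (z * e.1 - e.2.2 * r) ^ 2 := by
    rw [h1]
    simp only [P, Q] at hQe ⊢
    linear_combination -(r ^ 2) * hQe + (e.1 ^ 2) * hQ
  have hkey' : |(app d p.l.reverse (r, s, z)).1| * (r * |e.1|) =
      d * (z * e.1 - e.2.2 * r) ^ 2 := by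
    rw [← abs_of_pos hr, ← abs_mul, ← abs_mul, abs_of_pos hr, hkey, abs_of_nonneg (by positivity)]
  have he0 : 0 < |e.1| := abs_pos.2 hR0
  have h5 : |(app d p.l.reverse (r, s, z)).1| * (r * |e.1|) < r * (r * |e.1|) := by
    rw [hkey']
    calc d * (z * e.1 - e.2.2 * r) ^ 2 < |e.1| * r ^ 2 := hstrict
      _ = r * (r * |e.1|) := by ring
  exact lt_of_mul_lt_mul_right h5 (by positivity)

/-- the descent step -/
theorem step {l : List Piece} (hd : 0 < d) (hc : Cert d l) {u : V} (hr : u.1 ≠ 0)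
    (hQ : Q d u = 0) (hinv : IsCoprime u.1 d ∨ IsCoprime u.2.1 d) :
    ∃ w : List V, Units d w ∧ |(app d w u).1| < |u.1| := by
  -- the sign
  wlog hpos : 0 < u.1 generalizing u with H
  · have h1 : u.1 < 0 := lt_of_le_of_ne (not_lt.1 hpos) hr
    obtain ⟨w, hw, hlt⟩ := H (u := -u) (by simpa using hr)
      (by simp only [Q, Prod.fst_neg, Prod.snd_neg] at hQ ⊢; linarith)
      (by
        simp only [Prod.fst_neg, Prod.snd_neg]
        rcases hinv with h | h
        · exact Or.inl h.neg_left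
        · exact Or.inr h.neg_left)
      (by simp only [Prod.fst_neg]; linarith)
    refine ⟨w, hw, ?_⟩
    rw [app_neg] at hlt
    simpa using hlt
  -- the translation
  have key : ∀ u : V, 0 < u.1 → Q d u = 0 → (IsCoprime u.1 d ∨ IsCoprime u.2.1 d) →
      0 ≤ u.2.2 → 2 * u.2.2 ≤ u.1 → ∃ w : List V, Units d w ∧ |(app d w u).1| < |u.1| := by
    rintro ⟨r, s, z⟩ h1 h2 h3 h4 h5
    obtain ⟨w, hw, hlt⟩ := step₀ hd hc h1 h4 h5 (s := s)
      (by simp only [Q] at h2; linarith) h3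
    refine ⟨w, hw, ?_⟩
    rw [abs_of_pos h1]
    exact hlt
  have key2 : ∀ u : V, 0 < u.1 → Q d u = 0 → (IsCoprime u.1 d ∨ IsCoprime u.2.1 d) →
      2 * |u.2.2| ≤ u.1 → ∃ w : List V, Units d w ∧ |(app d w u).1| < |u.1| := by
    intro u h1 h2 h3 h4
    rcases abs_cases u.2.2 with ⟨h5, h6⟩ | ⟨h5, h6⟩
    · exact key u h1 h2 h3 h6 (by rw [← h5]; exact h4)
    · obtain ⟨w, hw, hlt⟩ := key (sg u) h1 (by rw [Q_sg]; exact h2) h3
        (by simp only [sg]; linarith) (by simp only [sg]; linarith)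
      refine ⟨w.map sg, hw.sg, ?_⟩
      have h7 : app d (w.map sg) u = sg (app d w (sg u)) := by
        rw [← app_sg]
        congr 1
        simp [sg]
      rw [h7]
      exact hlt
  obtain ⟨k, hk⟩ : ∃ k : ℤ, 2 * |u.2.2 + u.1 * k| ≤ u.1 := by
    refine ⟨-((2 * u.2.2 + u.1) / (2 * u.1)), ?_⟩
    have h1 := Int.emod_nonneg (2 * u.2.2 + u.1) (show (2 * u.1) ≠ 0 by omega)
    have h2 := Int.emod_lt_of_pos (2 * u.2.2 + u.1) (show 0 < 2 * u.1 by omega)
    have h3 := Int.emod_add_mul_ediv (2 * u.2.2 + u.1) (2 * u.1)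
    set q := (2 * u.2.2 + u.1) / (2 * u.1)
    set m := (2 * u.2.2 + u.1) % (2 * u.1)
    have h4 : 2 * (u.2.2 + u.1 * -q) = m - u.1 := by linarith [mul_comm u.1 q]
    have h5 : 2 * |u.2.2 + u.1 * -q| = |m - u.1| := by
      rw [← h4, abs_mul]; norm_num
    rw [h5, abs_le]
    constructor <;> linarith
  have hs : (ex d k u).2.1 = u.2.1 + d * (2 * k * u.2.2 + u.1 * k ^ 2) := by
    simp only [ex]; ring
  obtain ⟨w, hw, hlt⟩ := key2 (ex d k u) hpos (by rw [Q_ex]; exact hQ)
    (by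
      rcases hinv with h | h
      · exact Or.inl h
      · right
        rw [hs]
        exact h.add_mul_left_left _)
    (by simp only [ex]; exact hk)
  refine ⟨w.map (ex d (-k)), hw.ex _, ?_⟩
  have h7 : app d (w.map (ex d (-k))) u = ex d (-k) (app d w (ex d k u)) := by
    rw [← app_ex, ex_ex, neg_add_cancel, ex_zero]
  rw [h7]
  exact hlt

end Pool.Agent.Mukai3
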